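import Mathlib

set_option autoImplicit false

open Set

namespace Pool.Agent.Results.MP_d7bb9e_an.RadialCounterexample

/-- Euclidean space of dimension `n`. -/
abbrev E (n : ℕ) : Type := EuclideanSpace ℝ (Fin n)

/-- The truncation `T_q(f)(x) = max {q, f(x)}`. -/
def trunc {n : ℕ} (q : ℝ) (f : E n → ℝ) : E n → ℝ := fun x => max q (f x)

/-- The levels `q ≥ inf f` (infimum taken in the extended reals) such that `T_r(f)` is convex
for all `r ≥ q`. -/
def convLevels {n : ℕ} (f : E n → ℝ) : Set ℝ :=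
  {q | (⨅ x, (f x : EReal)) ≤ (q : EReal) ∧ ∀ r, q ≤ r → ConvexOn ℝ univ (trunc r f)}

/-- `f` is truncated convex. -/
def TruncatedConvex {n : ℕ} (f : E n → ℝ) : Prop := (convLevels f).Nonempty

/-- The smallest convexity level of `f`. -/
noncomputable def scl {n : ℕ} (f : E n → ℝ) : ℝ := sInf (convLevels f)

/-- The Hessian matrix of `f` at `x`. -/
noncomputable def hess {n : ℕ} (f : E n → ℝ) (x : E n) : Matrix (Fin n) (Fin n) ℝ :=
  fun i j => fderiv ℝ (fderiv ℝ f) x (EuclideanSpace.single i 1) (EuclideanSpace.single j 1)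

/-- The set where the Hessian matrix is positive definite. -/
def HessPos {n : ℕ} (f : E n → ℝ) : Set (E n) := {x | (hess f x).PosDef}

/-- The critical set of `f`. -/
def critSet {n : ℕ} (f : E n → ℝ) : Set (E n) := {x | gradient f x = 0}

/-- The valence of a map. -/
noncomputable def valence {n : ℕ} (F : E n → E n) : ℕ∞ := ⨆ y, (F ⁻¹' {y}).encard

/-- The hypotheses (H). -/
structure HypH {n : ℕ} (f : E n → ℝ) : Prop where
  contDiff : ContDiff ℝ 2 f
  morse : ∀ x ∈ critSet f, (hess f x).det ≠ 0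
  not_convex : ¬ ConvexOn ℝ univ f
  truncatedConvex : TruncatedConvex f
  scl_mem : scl f ∈ range f
  scl_regular : f ⁻¹' {scl f} ∩ critSet f = ∅
  superlevel : f ⁻¹' Ioi (scl f) ⊆ HessPos f

/-- The region `Hess⁺(f) \ f⁻¹(scl(f), +∞)`. -/
def innerRegion {n : ℕ} (f : E n → ℝ) : Set (E n) := HessPos f \ f ⁻¹' Ioi (scl f)

/-- The radial profile as a function of the radius. -/
def g (t : ℝ) : ℝ := 120 * t ^ 2 - 25 * t ^ 4 + 2 * t ^ 6

/-- The derivative of the radial profile. -/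
def G (t : ℝ) : ℝ := 240 * t - 100 * t ^ 3 + 12 * t ^ 5

/-- The counterexample. -/
noncomputable def f (n : ℕ) : E n → ℝ := fun x => g ‖x‖

lemma hasDerivAt_g (t : ℝ) : HasDerivAt g (G t) t := by
  have h := (((hasDerivAt_pow 2 t).const_mul 120).sub ((hasDerivAt_pow 4 t).const_mul 25)).add
    ((hasDerivAt_pow 6 t).const_mul 2)
  refine HasDerivAt.congr_deriv (f := g) h ?_
  unfold G
  norm_num
  ring

lemma hasDerivAt_G (t : ℝ) : HasDerivAt G (60 * (t ^ 2 - 1) * (t ^ 2 - 4)) t := by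
  have h := (((hasDerivAt_id t).const_mul 240).sub ((hasDerivAt_pow 3 t).const_mul 100)).add
    ((hasDerivAt_pow 5 t).const_mul 12)
  refine HasDerivAt.congr_deriv (f := G) h ?_
  norm_num
  ring

lemma G_pos {t : ℝ} (ht : 0 < t) : 0 < G t := by
  unfold G
  nlinarith [mul_pos ht (by nlinarith [sq_nonneg (t ^ 2 - 25 / 6)] : 0 < 240 - 100 * t ^ 2 + 12 * t ^ 4)]

lemma g_strictMono : StrictMonoOn g (Ici 0) := by
  apply strictMonoOn_of_deriv_pos (convex_Ici 0)
  · exact fun x _ => (hasDerivAt_g x).continuousAt.continuousWithinAt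
  · intro x hx
    rw [interior_Ici] at hx
    rw [(hasDerivAt_g x).deriv]
    exact G_pos hx

lemma g_nonneg (t : ℝ) : 0 ≤ g t := by
  unfold g
  have h1 : 0 ≤ 120 - 25 * t ^ 2 + 2 * t ^ 4 := by nlinarith [sq_nonneg (t ^ 2 - 25 / 4)]
  nlinarith [mul_nonneg (sq_nonneg t) h1]

lemma G_mono_one : StrictMonoOn G (Icc 0 1) := by
  apply strictMonoOn_of_deriv_pos (convex_Icc 0 1)
  · exact fun x _ => (hasDerivAt_G x).continuousAt.continuousWithinAt
  · intro x hx
    rw [interior_Icc] at hx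
    rw [(hasDerivAt_G x).deriv]
    have h1 : x ^ 2 < 1 := by nlinarith [hx.1, hx.2]
    nlinarith [mul_pos (sub_pos.2 h1) (by linarith : 0 < 4 - x ^ 2)]

lemma G_anti_mid : StrictAntiOn G (Icc 1 2) := by
  apply strictAntiOn_of_deriv_neg (convex_Icc 1 2)
  · exact fun x _ => (hasDerivAt_G x).continuousAt.continuousWithinAt
  · intro x hx
    rw [interior_Icc] at hx
    rw [(hasDerivAt_G x).deriv]
    have h1 : 1 < x ^ 2 := by nlinarith [hx.1, hx.2]
    have h2 : x ^ 2 < 4 := by nlinarith [hx.1, hx.2]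
    nlinarith [mul_pos (sub_pos.2 h1) (sub_pos.2 h2)]

lemma G_mono_two : StrictMonoOn G (Ici 2) := by
  apply strictMonoOn_of_deriv_pos (convex_Ici 2)
  · exact fun x _ => (hasDerivAt_G x).continuousAt.continuousWithinAt
  · intro x hx
    rw [interior_Ici] at hx
    rw [(hasDerivAt_G x).deriv]
    have hx' : 2 < x := hx
    have h2 : 4 < x ^ 2 := by nlinarith
    nlinarith [mul_pos (by linarith : 0 < x ^ 2 - 1) (sub_pos.2 h2)]

lemma g_convex_two : ConvexOn ℝ (Ici 2) g := by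
  apply MonotoneOn.convexOn_of_deriv (convex_Ici 2)
  · exact fun x _ => (hasDerivAt_g x).continuousAt.continuousWithinAt
  · exact fun x _ => (hasDerivAt_g x).differentiableAt.differentiableWithinAt
  · intro x hx y hy hxy
    rw [(hasDerivAt_g x).deriv, (hasDerivAt_g y).deriv]
    exact G_mono_two.monotoneOn (interior_subset hx) (interior_subset hy) hxy

lemma g_two : g 2 = 208 := by unfold g; norm_num

lemma g_one : g 1 = 97 := by unfold g; norm_num

/-- The truncations at level at least `208` are convex. -/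
lemma trunc_convex (n : ℕ) {r : ℝ} (hr : 208 ≤ r) : ConvexOn ℝ univ (trunc r (f n)) := by
  refine ⟨convex_univ, ?_⟩
  intro x _ y _ a b ha hb hab
  have key : ∀ t : ℝ, 0 ≤ t → g (max t 2) ≤ max r (g t) := by
    intro t ht
    rcases le_total t 2 with h | h
    · rw [max_eq_right h, g_two]; exact le_max_of_le_left hr
    · rw [max_eq_left h]; exact le_max_right _ _
  have h1 : ‖a • x + b • y‖ ≤ a * ‖x‖ + b * ‖y‖ := by
    refine (norm_add_le _ _).trans ?_
    rw [norm_smul, norm_smul, Real.norm_of_nonneg ha, Real.norm_of_nonneg hb]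
  have h2 : a * ‖x‖ + b * ‖y‖ ≤ a * max ‖x‖ 2 + b * max ‖y‖ 2 := by gcongr <;> exact le_max_left _ _
  have h3 : g ‖a • x + b • y‖ ≤ g (a * max ‖x‖ 2 + b * max ‖y‖ 2) :=
    g_strictMono.monotoneOn (mem_Ici.2 (norm_nonneg _)) (mem_Ici.2 (by positivity)) (h1.trans h2)
  have h4 : g (a * max ‖x‖ 2 + b * max ‖y‖ 2) ≤ a * g (max ‖x‖ 2) + b * g (max ‖y‖ 2) := by
    have := g_convex_two.2 (mem_Ici.2 (le_max_right ‖x‖ 2)) (mem_Ici.2 (le_max_right ‖y‖ 2))
      ha hb hab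
    simpa [smul_eq_mul] using this
  have h5 : a * g (max ‖x‖ 2) + b * g (max ‖y‖ 2) ≤ a * max r (g ‖x‖) + b * max r (g ‖y‖) := by
    gcongr
    · exact key _ (norm_nonneg _)
    · exact key _ (norm_nonneg _)
  have h6 : r ≤ a * max r (g ‖x‖) + b * max r (g ‖y‖) := by
    calc r = a * r + b * r := by rw [← add_mul, hab, one_mul]
      _ ≤ _ := by gcongr <;> exact le_max_left _ _
  simp only [trunc, f, smul_eq_mul]
  exact max_le h6 (h3.trans (h4.trans h5))

/-- The truncations at a level below `208` are not convex. -/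
lemma trunc_not_convex {n : ℕ} (hn : 1 ≤ n) {r : ℝ} (hr : r < 208) :
    ¬ ConvexOn ℝ univ (trunc r (f n)) := by
  intro h
  have hgc : Continuous g := by unfold g; fun_prop
  -- choose `a < 2` close to `2` with `g a > r`
  obtain ⟨a, ha1, ha2, har⟩ : ∃ a : ℝ, 1 < a ∧ a < 2 ∧ r < g a := by
    have hev : ∀ᶠ a in nhds (2 : ℝ), r < g a :=
      hgc.continuousAt.eventually (lt_mem_nhds (by rw [g_two]; exact hr))
    have hev2 : ∀ᶠ a in nhdsWithin (2 : ℝ) (Iio 2), r < g a ∧ a < 2 ∧ 1 < a :=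
      (hev.filter_mono nhdsWithin_le_nhds).and
        ((eventually_mem_nhdsWithin).and
          ((lt_mem_nhds (by norm_num : (1 : ℝ) < 2)).filter_mono nhdsWithin_le_nhds))
    obtain ⟨a, h1, h2, h3⟩ := hev2.exists
    exact ⟨a, h3, h2, h1⟩
  let e : E n := EuclideanSpace.single ⟨0, hn⟩ 1
  have he : ‖e‖ = 1 := by simp [e]
  have hval : ∀ t : ℝ, 0 ≤ t → f n (t • e) = g t := by
    intro t ht
    simp only [f, norm_smul, he, mul_one, Real.norm_of_nonneg ht]
  have hc := h.2 (mem_univ (a • e)) (mem_univ ((2 : ℝ) • e)) (by norm_num : (0 : ℝ) ≤ 1 / 2)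
    (by norm_num : (0 : ℝ) ≤ 1 / 2) (by norm_num)
  have hmid : (1 / 2 : ℝ) • a • e + (1 / 2 : ℝ) • (2 : ℝ) • e = ((a + 2) / 2) • e := by
    rw [smul_smul, smul_smul, ← add_smul]
    congr 1
    ring
  rw [hmid] at hc
  simp only [trunc, smul_eq_mul] at hc
  rw [hval _ (by linarith), hval _ (by linarith), hval _ (by linarith), g_two,
    max_eq_right har.le, max_eq_right hr.le] at hc
  have h1 := (le_max_right r (g ((a + 2) / 2))).trans hc
  -- but `g` is strictly concave on `[1, 2]`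
  have hconc : StrictConcaveOn ℝ (Icc 1 2) g := by
    apply StrictAntiOn.strictConcaveOn_of_deriv (convex_Icc 1 2)
    · exact hgc.continuousOn
    · intro x hx y hy hxy
      rw [(hasDerivAt_g x).deriv, (hasDerivAt_g y).deriv]
      exact G_anti_mid (interior_subset hx) (interior_subset hy) hxy
  have h2 := hconc.2 (x := a) ⟨ha1.le, ha2.le⟩ (y := 2) ⟨by norm_num, le_refl _⟩ ha2.ne
    (by norm_num : (0 : ℝ) < 1 / 2) (by norm_num : (0 : ℝ) < 1 / 2) (by norm_num)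
  simp only [smul_eq_mul] at h2
  have h3 : (1 / 2 : ℝ) * a + 1 / 2 * 2 = (a + 2) / 2 := by ring
  rw [h3, g_two] at h2
  linarith

lemma inf_le {n : ℕ} {q : ℝ} (hq : 0 ≤ q) : (⨅ x, (f n x : EReal)) ≤ (q : EReal) := by
  refine (iInf_le _ 0).trans ?_
  have : f n 0 = 0 := by simp [f, g]
  rw [this]
  exact_mod_cast hq

lemma convLevels_eq {n : ℕ} (hn : 1 ≤ n) : convLevels (f n) = Ici 208 := by
  ext q
  constructor
  · rintro ⟨_, h⟩
    by_contra hq
    exact trunc_not_convex hn (not_le.1 hq) (h q le_rfl)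
  · intro hq
    have hq' : (208 : ℝ) ≤ q := hq
    exact ⟨inf_le (by linarith), fun r hr => trunc_convex n (hq'.trans hr)⟩

lemma scl_eq {n : ℕ} (hn : 1 ≤ n) : scl (f n) = 208 := by
  unfold scl
  rw [convLevels_eq hn, csInf_Ici]

/-- `‖x‖² ` version of the function. -/
lemma f_eq (n : ℕ) : f n = fun x => 120 * (‖x‖ ^ 2) - 25 * (‖x‖ ^ 2) ^ 2 + 2 * (‖x‖ ^ 2) ^ 3 := by
  funext x
  simp only [f, g]
  ring

/-- The first derivative. -/
lemma hasFDerivAt_f (n : ℕ) (x : E n) :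
    HasFDerivAt (f n) ((240 - 100 * ‖x‖ ^ 2 + 12 * (‖x‖ ^ 2) ^ 2) • innerSL ℝ x) x := by
  rw [f_eq]
  have h0 : HasFDerivAt (fun x : E n => ‖x‖ ^ 2) (2 • (innerSL ℝ x)) x :=
    (hasStrictFDerivAt_norm_sq x).hasFDerivAt
  have h := ((h0.const_mul 120).sub ((h0.pow 2).const_mul 25)).add ((h0.pow 3).const_mul 2)
  refine HasFDerivAt.congr_fderiv h ?_
  ext v
  simp
  ring

lemma fderiv_f (n : ℕ) :
    fderiv ℝ (f n) = fun x => (240 - 100 * ‖x‖ ^ 2 + 12 * (‖x‖ ^ 2) ^ 2) • innerSL ℝ x := by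
  funext x
  exact (hasFDerivAt_f n x).fderiv

lemma gradient_f (n : ℕ) (x : E n) :
    gradient (f n) x = (240 - 100 * ‖x‖ ^ 2 + 12 * (‖x‖ ^ 2) ^ 2) • x := by
  apply HasGradientAt.gradient
  rw [hasGradientAt_iff_hasFDerivAt]
  refine HasFDerivAt.congr_fderiv (hasFDerivAt_f n x) ?_
  ext v
  simp

/-- The second derivative. -/
lemma hess_apply (n : ℕ) (x v w : E n) :
    fderiv ℝ (fderiv ℝ (f n)) x v w =
      (240 - 100 * ‖x‖ ^ 2 + 12 * (‖x‖ ^ 2) ^ 2) * inner ℝ v w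
        + (-200 + 48 * ‖x‖ ^ 2) * inner ℝ x v * inner ℝ x w := by
  rw [fderiv_f]
  have h0 : HasFDerivAt (fun x : E n => ‖x‖ ^ 2) (2 • (innerSL ℝ x)) x :=
    (hasStrictFDerivAt_norm_sq x).hasFDerivAt
  have h1 := ((hasFDerivAt_const (240 : ℝ) x).sub (h0.const_mul 100)).add ((h0.pow 2).const_mul 12)
  have h2 : HasFDerivAt (fun x : E n => (innerSL ℝ x : E n →L[ℝ] ℝ)) (innerSL ℝ) x :=
    (innerSL ℝ (E := E n)).hasFDerivAt
  have h := h1.smul h2
  have h' : HasFDerivAt (fun x : E n => (240 - 100 * ‖x‖ ^ 2 + 12 * (‖x‖ ^ 2) ^ 2) • innerSL ℝ x)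
    _ x := h
  rw [h'.fderiv]
  have e1 : (240 - 100 * ‖x‖ ^ 2 + 12 * (‖x‖ ^ 2) ^ 2) * inner ℝ v w
      + (0 - 100 * (2 • inner ℝ x v) + 12 * ((2 • (‖x‖ ^ 2) ^ (2 - 1)) * (2 • inner ℝ x v)))
        * inner ℝ x w =
      (240 - 100 * ‖x‖ ^ 2 + 12 * (‖x‖ ^ 2) ^ 2) * inner ℝ v w
        + (-200 + 48 * ‖x‖ ^ 2) * inner ℝ x v * inner ℝ x w := by
    simp only [nsmul_eq_mul, Nat.cast_ofNat]
    ring
  exact e1

lemma G_eq (t : ℝ) : G t = (240 - 100 * t ^ 2 + 12 * (t ^ 2) ^ 2) * t := by unfold G; ring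

lemma coeff_pos (t : ℝ) : 0 < 240 - 100 * t ^ 2 + 12 * (t ^ 2) ^ 2 := by
  nlinarith [sq_nonneg (t ^ 2 - 25 / 6)]

lemma critSet_f (n : ℕ) : critSet (f n) = {0} := by
  ext x
  simp only [critSet, mem_ofPred_eq, gradient_f, mem_singleton_iff, smul_eq_zero]
  constructor
  · rintro (h | h)
    · exact absurd h (coeff_pos ‖x‖).ne'
    · exact h
  · exact fun h => Or.inr h

/-- The quadratic form of the Hessian matrix. -/
lemma hess_quad (n : ℕ) (x v : E n) :
    star (WithLp.ofLp v) ⬝ᵥ (hess (f n) x).mulVec (WithLp.ofLp v) =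
      (240 - 100 * ‖x‖ ^ 2 + 12 * (‖x‖ ^ 2) ^ 2) * ‖v‖ ^ 2
        + (-200 + 48 * ‖x‖ ^ 2) * (inner ℝ x v) ^ 2 := by
  have h1 : star (WithLp.ofLp v) ⬝ᵥ (hess (f n) x).mulVec (WithLp.ofLp v) =
      fderiv ℝ (fderiv ℝ (f n)) x v v := by
    have hv : v = ∑ i, v i • (EuclideanSpace.single i (1 : ℝ)) := by
      ext j
      simp [Finset.sum_apply, Pi.single_apply]
    conv_rhs => rw [hv]
    simp only [map_sum, map_smul, sum_apply, smul_apply,
      dotProduct, Matrix.mulVec, hess, smul_eq_mul, Pi.star_apply, star_trivial]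
    simp only [Finset.mul_sum]
    rw [Finset.sum_comm]
    refine Finset.sum_congr rfl fun i _ => ?_
    refine Finset.sum_congr rfl fun j _ => ?_
    ring
  rw [h1, hess_apply, real_inner_self_eq_norm_sq]
  ring

lemma hess_isHermitian (n : ℕ) (x : E n) : (hess (f n) x).IsHermitian := by
  ext i j
  simp only [hess, Matrix.conjTranspose_apply, hess_apply, star_trivial]
  rw [real_inner_comm]
  ring

lemma form_lower (n : ℕ) (x v : E n) :
    min (240 - 100 * ‖x‖ ^ 2 + 12 * (‖x‖ ^ 2) ^ 2) (60 * (‖x‖ ^ 2 - 1) * (‖x‖ ^ 2 - 4)) * ‖v‖ ^ 2 ≤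
      (240 - 100 * ‖x‖ ^ 2 + 12 * (‖x‖ ^ 2) ^ 2) * ‖v‖ ^ 2
        + (-200 + 48 * ‖x‖ ^ 2) * (inner ℝ x v) ^ 2 := by
  have hcs : (inner ℝ x v) ^ 2 ≤ ‖x‖ ^ 2 * ‖v‖ ^ 2 := by
    have := abs_real_inner_le_norm x v
    rw [← mul_pow, ← sq_abs]
    exact pow_le_pow_left₀ (abs_nonneg _) this 2
  have hv : 0 ≤ ‖v‖ ^ 2 := sq_nonneg _
  rcases le_total 0 (-200 + 48 * ‖x‖ ^ 2) with h | h
  · have h1 := min_le_left (240 - 100 * ‖x‖ ^ 2 + 12 * (‖x‖ ^ 2) ^ 2)
      (60 * (‖x‖ ^ 2 - 1) * (‖x‖ ^ 2 - 4))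
    nlinarith [mul_le_mul_of_nonneg_right h1 hv, mul_nonneg h (sq_nonneg (inner ℝ x v : ℝ))]
  · have h1 := min_le_right (240 - 100 * ‖x‖ ^ 2 + 12 * (‖x‖ ^ 2) ^ 2)
      (60 * (‖x‖ ^ 2 - 1) * (‖x‖ ^ 2 - 4))
    nlinarith [mul_le_mul_of_nonneg_right h1 hv, mul_le_mul_of_nonpos_left hcs h]

lemma hessPos_iff {n : ℕ} (x : E n) : x ∈ HessPos (f n) ↔ ‖x‖ < 1 ∨ 2 < ‖x‖ := by
  constructor
  · intro hx
    by_contra hcon
    push Not at hcon
    obtain ⟨h1, h2⟩ := hcon
    have hx0 : x ≠ 0 := by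
      rintro rfl
      simp at h1
      linarith
    have hx' : (hess (f n) x).PosDef := hx
    have h3 := hx'.dotProduct_mulVec_pos (x := WithLp.ofLp x) (by
      intro h
      apply hx0
      ext i
      exact congrFun h i)
    rw [hess_quad, real_inner_self_eq_norm_sq] at h3
    have h4 : 1 ≤ ‖x‖ ^ 2 := by nlinarith
    have h5 : ‖x‖ ^ 2 ≤ 4 := by nlinarith
    have h6 : (240 - 100 * ‖x‖ ^ 2 + 12 * (‖x‖ ^ 2) ^ 2) * ‖x‖ ^ 2
        + (-200 + 48 * ‖x‖ ^ 2) * (‖x‖ ^ 2) ^ 2 =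
        -(60 * ((‖x‖ ^ 2 - 1) * (4 - ‖x‖ ^ 2)) * ‖x‖ ^ 2) := by ring
    rw [h6] at h3
    have h7 : 0 ≤ 60 * ((‖x‖ ^ 2 - 1) * (4 - ‖x‖ ^ 2)) * ‖x‖ ^ 2 := by
      have := mul_nonneg (sub_nonneg.2 h4) (sub_nonneg.2 h5)
      positivity
    linarith
  · intro hx
    have hpos : 0 < 60 * (‖x‖ ^ 2 - 1) * (‖x‖ ^ 2 - 4) := by
      rcases hx with h | h
      · have h1 : ‖x‖ ^ 2 < 1 := by nlinarith [norm_nonneg x]
        nlinarith [mul_pos (sub_pos.2 h1) (by linarith : 0 < 4 - ‖x‖ ^ 2)]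
      · have h1 : 4 < ‖x‖ ^ 2 := by nlinarith [norm_nonneg x]
        nlinarith [mul_pos (sub_pos.2 h1) (by linarith : 0 < ‖x‖ ^ 2 - 1)]
    refine Matrix.PosDef.of_dotProduct_mulVec_pos (hess_isHermitian n x) ?_
    intro v hv
    have h1 := hess_quad n x (WithLp.toLp 2 v)
    simp only at h1
    rw [h1]
    refine lt_of_lt_of_le ?_ (form_lower n x (WithLp.toLp 2 v))
    have hv' : 0 < ‖(WithLp.toLp 2 v : E n)‖ := by
      rw [norm_pos_iff]
      intro h
      apply hv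
      have := congrArg WithLp.ofLp h
      simpa using this
    exact mul_pos (lt_min (coeff_pos _) hpos) (by positivity)

lemma g_lt_iff {n : ℕ} (x : E n) : 208 < f n x ↔ 2 < ‖x‖ := by
  rw [← g_two]
  exact g_strictMono.lt_iff_lt (mem_Ici.2 (by norm_num)) (mem_Ici.2 (norm_nonneg x))

lemma hypH {n : ℕ} (hn : 1 ≤ n) : HypH (f n) where
  contDiff := by
    rw [f_eq]
    have h : ContDiff ℝ 2 (fun x : E n => ‖x‖ ^ 2) := contDiff_norm_sq ℝ
    fun_prop
  morse := by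
    intro x hx
    rw [critSet_f] at hx
    have hx0 : x = 0 := hx
    have h : (hess (f n) x).PosDef := (hessPos_iff x).2 (Or.inl (by rw [hx0]; simp))
    exact h.det_pos.ne'
  not_convex := by
    intro h
    have h2 : trunc 0 (f n) = f n := by
      funext x
      exact max_eq_right (g_nonneg _)
    exact trunc_not_convex hn (by norm_num : (0 : ℝ) < 208) (by rw [h2]; exact h)
  truncatedConvex := ⟨208, by rw [convLevels_eq hn]; exact mem_Ici.2 le_rfl⟩
  scl_mem := by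
    rw [scl_eq hn]
    refine ⟨(2 : ℝ) • EuclideanSpace.single (⟨0, hn⟩ : Fin n) (1 : ℝ), ?_⟩
    simp [f, norm_smul, g_two]
  scl_regular := by
    rw [scl_eq hn, critSet_f]
    ext x
    simp only [mem_inter_iff, mem_preimage, mem_singleton_iff, mem_empty_iff_false, iff_false,
      not_and]
    rintro h rfl
    simp [f, g] at h
  superlevel := by
    rw [scl_eq hn]
    intro x hx
    exact (hessPos_iff x).2 (Or.inr ((g_lt_iff x).1 hx))

lemma innerRegion_eq {n : ℕ} (hn : 1 ≤ n) : innerRegion (f n) = Metric.ball 0 1 := by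
  ext x
  simp only [innerRegion, scl_eq hn, mem_sdiff, hessPos_iff, mem_preimage, mem_Ioi, g_lt_iff,
    mem_ball_zero_iff]
  constructor
  · rintro ⟨h1 | h1, h2⟩
    · exact h1
    · exact absurd h1 h2
  · intro h
    exact ⟨Or.inl h, by linarith⟩

lemma card_pi0 {n : ℕ} (hn : 1 ≤ n) :
    ENat.card (ConnectedComponents (innerRegion (f n))) = 1 := by
  rw [innerRegion_eq hn]
  have hpc : PreconnectedSpace (Metric.ball (0 : E n) 1) :=
    Subtype.preconnectedSpace (convex_ball (0 : E n) 1).isPreconnected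
  have h1 : Subsingleton (ConnectedComponents (Metric.ball (0 : E n) 1)) := inferInstance
  have h2 : Nonempty (ConnectedComponents (Metric.ball (0 : E n) 1)) :=
    ⟨ConnectedComponents.mk ⟨0, by simp⟩⟩
  have h3 : Unique (ConnectedComponents (Metric.ball (0 : E n) 1)) := uniqueOfSubsingleton h2.some
  simp

lemma norm_gradient (n : ℕ) (x : E n) : ‖gradient (f n) x‖ = G ‖x‖ := by
  rw [gradient_f, norm_smul, Real.norm_of_nonneg (coeff_pos _).le, G_eq]

lemma subsingleton_fiber {n : ℕ} (y : E n) (S : Set ℝ) (hS : InjOn G S) :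
    {x : E n | gradient (f n) x = y ∧ ‖x‖ ∈ S}.Subsingleton := by
  rintro x ⟨hx, hxS⟩ x' ⟨hx', hxS'⟩
  have h1 : G ‖x‖ = G ‖x'‖ := by rw [← norm_gradient, ← norm_gradient, hx, hx']
  have h2 : ‖x‖ = ‖x'‖ := hS hxS hxS' h1
  rw [gradient_f] at hx hx'
  rw [← h2] at hx'
  have h3 := hx.trans hx'.symm
  exact smul_right_injective _ (coeff_pos ‖x‖).ne' h3

lemma fiber_le {n : ℕ} (y : E n) : (gradient (f n) ⁻¹' {y}).encard ≤ 3 := by
  have hsub : gradient (f n) ⁻¹' {y} ⊆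
      ({x : E n | gradient (f n) x = y ∧ ‖x‖ ∈ Icc (0 : ℝ) 1} ∪
      {x : E n | gradient (f n) x = y ∧ ‖x‖ ∈ Icc (1 : ℝ) 2}) ∪
      {x : E n | gradient (f n) x = y ∧ ‖x‖ ∈ Ici (2 : ℝ)} := by
    intro x hx
    have hx' : gradient (f n) x = y := hx
    rcases le_total ‖x‖ 1 with h | h
    · exact Or.inl (Or.inl ⟨hx', norm_nonneg x, h⟩)
    · rcases le_total ‖x‖ 2 with h' | h'
      · exact Or.inl (Or.inr ⟨hx', h, h'⟩)
      · exact Or.inr ⟨hx', h'⟩
  refine (encard_le_encard hsub).trans ((encard_union_le _ _).trans ?_)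
  have h1 := encard_le_one_iff_subsingleton.2 (subsingleton_fiber y _ G_mono_one.injOn)
  have h2 := encard_le_one_iff_subsingleton.2 (subsingleton_fiber y _ G_anti_mid.injOn)
  have h3 := encard_le_one_iff_subsingleton.2 (subsingleton_fiber y _ G_mono_two.injOn)
  calc _ ≤ (1 + 1) + 1 := add_le_add ((encard_union_le _ _).trans (add_le_add h1 h2)) h3
    _ = 3 := by norm_num

lemma valence_eq {n : ℕ} (hn : 1 ≤ n) : valence (gradient (f n)) = 3 := by
  refine le_antisymm (iSup_le fiber_le) ?_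
  have hGc : Continuous G := by unfold G; fun_prop
  have hG0 : G 0 = 0 := by norm_num [G]
  have hG1 : G 1 = 152 := by norm_num [G]
  have hG2 : G 2 = 64 := by norm_num [G]
  have hG3 : G 3 = 936 := by norm_num [G]
  obtain ⟨t1, ht1, hv1⟩ := intermediate_value_Ioo (by norm_num : (0 : ℝ) ≤ 1)
    (hGc.continuousOn (s := Icc 0 1)) (show (100 : ℝ) ∈ Ioo (G 0) (G 1) by
      rw [hG0, hG1]; constructor <;> norm_num)
  obtain ⟨t2, ht2, hv2⟩ := intermediate_value_Ioo' (by norm_num : (1 : ℝ) ≤ 2)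
    (hGc.continuousOn (s := Icc 1 2)) (show (100 : ℝ) ∈ Ioo (G 2) (G 1) by
      rw [hG2, hG1]; constructor <;> norm_num)
  obtain ⟨t3, ht3, hv3⟩ := intermediate_value_Ioo (by norm_num : (2 : ℝ) ≤ 3)
    (hGc.continuousOn (s := Icc 2 3)) (show (100 : ℝ) ∈ Ioo (G 2) (G 3) by
      rw [hG2, hG3]; constructor <;> norm_num)
  let e : E n := EuclideanSpace.single ⟨0, hn⟩ 1
  have he : ‖e‖ = 1 := by simp [e]
  have he0 : e ≠ 0 := by
    rw [← norm_pos_iff, he]
    norm_num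
  have hgr : ∀ t : ℝ, 0 ≤ t → gradient (f n) (t • e) = G t • e := by
    intro t ht
    rw [gradient_f, norm_smul, he, mul_one, Real.norm_of_nonneg ht, smul_smul, G_eq]
  have hinj : ∀ s t : ℝ, s < t → s • e ≠ t • e := by
    intro s t hst h
    exact hst.ne (smul_left_injective ℝ he0 h)
  have hsub : ({t1 • e, t2 • e, t3 • e} : Set (E n)) ⊆ gradient (f n) ⁻¹' {(100 : ℝ) • e} := by
    intro x hx
    simp only [mem_insert_iff, mem_singleton_iff] at hx
    rcases hx with rfl | rfl | rfl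
    · exact (hgr t1 ht1.1.le).trans (by rw [hv1])
    · exact (hgr t2 (by linarith [ht2.1])).trans (by rw [hv2])
    · exact (hgr t3 (by linarith [ht3.1])).trans (by rw [hv3])
  have hcard : ({t1 • e, t2 • e, t3 • e} : Set (E n)).encard = 3 := by
    rw [encard_insert_of_notMem, encard_pair]
    · norm_num
    · exact hinj _ _ (by linarith [ht2.2, ht3.1])
    · simp only [mem_insert_iff, mem_singleton_iff, not_or]
      exact ⟨hinj _ _ (by linarith [ht1.2, ht2.1]), hinj _ _ (by linarith [ht1.2, ht3.1])⟩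
  calc (3 : ℕ∞) = _ := hcard.symm
    _ ≤ _ := encard_le_encard hsub
    _ ≤ _ := le_iSup (fun y => (gradient (f n) ⁻¹' {y}).encard) _

/-- In every dimension `n ≥ 1` there is a function satisfying (H) for which the three numbers
`Val(∇f) = 3`, `card C(f) = 1` and `card π₀(Hess⁺(f) \ f⁻¹(scl(f), +∞)) + 1 = 2` are pairwise
distinct. -/
theorem result (n : ℕ) (hn : 1 ≤ n) :
    ∃ f : EuclideanSpace ℝ (Fin n) → ℝ, HypH f ∧
      valence (gradient f) = 3 ∧ (critSet f).encard = 1 ∧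
      ENat.card (ConnectedComponents (innerRegion f)) + 1 = 2 :=
  ⟨f n, hypH hn, valence_eq hn, by rw [critSet_f, encard_singleton], by
    rw [card_pi0 hn]; norm_num⟩

end Pool.Agent.Results.MP_d7bb9e_an.RadialCounterexample
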